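import Pool.Agent.TH681.Adv.Up2
import Pool.Agent.TH681.Adv.Low

/-! The exact amount of advice. -/

set_option autoImplicit false

namespace Pool.Agent.TH681.Adv

open Pool.Agent.NPC Pool.Agent.H620R2.Gauge Finset Pool.Agent.H622R2 Filter MeasureTheory
open Pool.Agent.H591R3.PHG.LangSig (fit length_fit poly_fit)
open Pool.Agent.H628R3.RO (randomOracle)

theorem big {a : ℕ → ℕ} {c : ℕ} (h : ∀ᶠ n : ℕ in atTop, 2 ^ n ≤ a n * n ^ c) :
    ∀ᶠ n : ℕ in atTop, jn c n ≤ n ∧ 2 ^ (n - jn c n) * (jn c n + 1) ≤ a n := by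
  filter_upwards [h, Pool.Agent.TH681.Imm.poly_lt (Tc c), eventually_ge_atTop 1] with n h1 h2 h3
  have h4 : 2 ^ jn c n ≤ 2 ^ (n / 8) := ((two_pow_jn c n).trans (eval_Tc c n).ge).trans h2
  have h5 : jn c n ≤ n / 8 := (Nat.pow_le_pow_iff_right (by norm_num)).1 h4
  have h6 : jn c n ≤ n := h5.trans (Nat.div_le_self _ _)
  refine ⟨h6, ?_⟩
  have h7 : (jn c n + 1) * n ^ c ≤ 2 ^ jn c n := by
    calc (jn c n + 1) * n ^ c ≤ (n + 1) ^ 2 * (n + 1) ^ c := by
          apply Nat.mul_le_mul
          · nlinarith
          · exact Nat.pow_le_pow_left (by omega) _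
      _ = (n + 1) ^ (c + 2) := by rw [← pow_add, add_comm 2 c]
      _ ≤ (2 ^ n.bits.length) ^ (c + 2) := Nat.pow_le_pow_left (lt_two_pow_bits n) _
      _ = 2 ^ jn c n := by rw [← pow_mul, mul_comm]; rfl
  have h8 : 0 < n ^ c := by positivity
  apply Nat.le_of_mul_le_mul_right _ h8
  calc 2 ^ (n - jn c n) * (jn c n + 1) * n ^ c = 2 ^ (n - jn c n) * ((jn c n + 1) * n ^ c) := by
        ring
    _ ≤ 2 ^ (n - jn c n) * 2 ^ jn c n := Nat.mul_le_mul_left _ h7
    _ = 2 ^ n := by rw [← pow_add, Nat.sub_add_cancel h6]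
    _ ≤ a n * n ^ c := h1

/-- the upper bound, for all oracles -/
theorem upper (A : Oracle) {a : ℕ → ℕ} {c : ℕ} (h : ∀ᶠ n : ℕ in atTop, 2 ^ n ≤ a n * n ^ c)
    (L : Set (List Bool)) (hL : IsCoNP A L) : IsNPAdv A a L := by
  obtain ⟨V₀, p₀, hV₀, hV⟩ := hL
  obtain ⟨n₀, hn₀⟩ := eventually_atTop.1 (big h)
  have hfin : {x : List Bool | x ∈ L ∧ x.length < n₀}.Finite :=
    (List.finite_length_lt Bool n₀).subset fun x hx => hx.2
  set F₀ : List (List Bool) := hfin.toFinset.toList with hF₀
  have hmem : ∀ x, x ∈ F₀ ↔ x ∈ L ∧ x.length < n₀ := by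
    intro x
    rw [hF₀, Finset.mem_toList, Set.Finite.mem_toFinset]
    rfl
  obtain ⟨M, hM⟩ := ufp_VV c p₀ n₀ F₀ hV₀ (Hadv c L a)
  refine ⟨M, pU c p₀, Hadv c L a, ?_, fun x => ?_⟩
  · intro n y hy
    unfold Hadv at hy
    exact (of_decide_eq_true hy).1
  · have hM' : ∀ w : List Bool, M.out (two A (Hadv c L a x.length)) (pairBits w x) =
        some [true] ↔
        VV c p₀ n₀ F₀ V₀ (two A (Hadv c L a x.length)) (pairBits w x) = [true] := by
      intro w
      rw [hM, Option.some.injEq]
    simp only [hM']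
    by_cases hx : x.length < n₀
    · have h1 : ∀ w : List Bool,
          VV c p₀ n₀ F₀ V₀ (two A (Hadv c L a x.length)) (pairBits w x) = [true] ↔ x ∈ L := by
        intro w
        unfold VV tst
        rw [List.cons.injEq, unpair_pairBits]
        simp only [and_true]
        rw [if_pos hx, decide_eq_true_iff, hmem]
        exact and_iff_left hx
      simp only [h1]
      exact ⟨fun h => ⟨[], by simp, h⟩, fun ⟨_, _, h⟩ => h⟩
    · obtain ⟨h1, h2⟩ := hn₀ x.length (not_lt.1 hx)
      exact up_main hV (not_lt.1 hx) h1 h2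

/-! ### The range is in `NP` -/

/-- the questions -/
def QR (y : List Bool) : List (List Bool) :=
  (List.range (unpair y).2.length).map (fun l => (unpair y).1 ++
    List.replicate (min l (unpair y).2.length) true)

theorem poly_QR : Poly QR := by
  have h1 : Poly (fun y : List Bool => (unpair y).1) := Poly.fst poly_unpair
  have h2 : Poly (fun y : List Bool => (unpair y).2) := Poly.snd poly_unpair
  have h3 : UPoly (fun p : List Bool × ℕ => min p.2 (unpair p.1).2.length) :=
    UPoly.of_le (Poly.min (Poly.snd Poly.id) (Poly.length (h2.comp (Poly.fst Poly.id))))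
      ((UPoly.length h2).comp (Poly.fst Poly.id)) (fun p => min_le_right _ _)
  exact NPC.Poly.map (F := fun y l => (unpair y).1 ++
    List.replicate (min l (unpair y).2.length) true) (UPoly.length h2).range
    (Poly.append (h1.comp (Poly.fst Poly.id)) (p_replicate h3 true))

theorem range_np (A : Oracle) : IsNP A (Rg A) := by
  have h1 : Poly (fun q : List Bool × List Bool => (unpair q.1).1) :=
    Poly.fst (poly_unpair.comp (Poly.fst Poly.id))
  have h2 : Poly (fun q : List Bool × List Bool => (unpair q.1).2) :=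
    Poly.snd (poly_unpair.comp (Poly.fst Poly.id))
  have hH : Poly (fun q : List Bool × List Bool =>
      [decide ((unpair q.1).1.length + 1 = (unpair q.1).2.length) &&
        decide (q.2 = (unpair q.1).2)]) :=
    Poly.cons (Poly.and (Poly.decide_eq (Poly.succ (Poly.length h1)) (Poly.length h2))
      (Poly.decide_eq (Poly.snd Poly.id) h2)) (NPC.Poly.const [])
  refine ⟨_, Polynomial.X, IsFP.tt poly_QR hH, fun x => ?_⟩
  rw [Polynomial.eval_X]
  have hq : ∀ w : List Bool, (QR (pairBits w x)).map A =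
      (List.range x.length).map (fun l => A (w ++ List.replicate l true)) := by
    intro w
    unfold QR
    rw [unpair_pairBits, List.map_map]
    apply List.map_congr_left
    intro l hl
    rw [List.mem_range] at hl
    show A (w ++ List.replicate (min l x.length) true) = _
    rw [min_eq_left hl.le]
  have key : ∀ w : List Bool, (List.range x.length).map
      (fun l => A (w ++ List.replicate l true)) = x ↔
      ∀ i : Fin x.length, A (w ++ List.replicate i.1 true) = x.get i := by
    intro w
    constructor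
    · intro h i
      have h3 := congrArg (fun l => l[i.1]?) h
      simp only [List.getElem?_map, List.getElem?_range i.2, Option.map_some] at h3
      rw [List.getElem?_eq_getElem i.2, Option.some.injEq] at h3
      rw [List.get_eq_getElem]
      exact h3
    · intro h
      apply List.ext_getElem
      · rw [List.length_map, List.length_range]
      · intro i h3 h4
        rw [List.getElem_map, List.getElem_range]
        exact h ⟨i, h4⟩
  constructor
  · rintro ⟨w, hw1, hw2⟩
    refine ⟨w, by omega, ?_⟩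
    rw [hq, unpair_pairBits, (key w).2 hw2]
    simp [hw1]
  · rintro ⟨w, _, hw⟩
    rw [hq, unpair_pairBits, List.cons.injEq, Bool.and_eq_true, decide_eq_true_iff,
      decide_eq_true_iff] at hw
    exact ⟨w, hw.1.1, (key w).1 hw.1.2⟩

theorem range_compl_conp (A : Oracle) : IsCoNP A (Rg A)ᶜ := by
  unfold IsCoNP
  rw [compl_compl]
  exact range_np A

/-- the exact amount of advice -/
theorem main : ∀ᵐ A ∂randomOracle, ∀ a : ℕ → ℕ,
    (∀ L, IsCoNP A L → IsNPAdv A a L) ↔ ∃ c : ℕ, ∀ᶠ n : ℕ in atTop, 2 ^ n ≤ a n * n ^ c := by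
  filter_upwards [low] with A hA a
  constructor
  · intro h
    exact hA a (h _ (range_compl_conp A))
  · rintro ⟨c, hc⟩ L hL
    exact upper A hc L hL

end Pool.Agent.TH681.Adv
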