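import Pool.Agent.TH681.Adv.Bits
import Pool.Agent.H671R2.PolyAuto

/-! The upper bound: the numbers of the nonmembers in small groups of inputs as advice. -/

set_option autoImplicit false

namespace Pool.Agent.TH681.Adv

open Pool.Agent.NPC Pool.Agent.H620R2.Gauge Finset Pool.Agent.H622R2
open Pool.Agent.H591R3.PHG.LangSig (fit length_fit poly_fit)

/-- the group of an input consists of the inputs with the same binary digits from this digit on -/
def jn (c n : ℕ) : ℕ := (c + 2) * n.bits.length

/-- the number of the group -/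
def gno (c : ℕ) (x : List Bool) : ℕ := valB x / 2 ^ jn c x.length

/-- a member of the group -/
def mbr (c : ℕ) (x : List Bool) (i : ℕ) : List Bool :=
  fit x (i + 2 ^ jn c x.length * gno c x).bits

/-- the entry number `i` of the guess -/
def ent (u : List Bool) (i : ℕ) : List Bool := ((unbits (List (List Bool)) u).getD []).getD i []

/-- the questions for the advice -/
def Qc (c : ℕ) (y : List Bool) : List (List Bool) :=
  (List.range (jn c (unpair y).2.length + 1)).map (fun b =>
    true :: str (gno c (unpair y).2 * (jn c (unpair y).2.length + 1) + b))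

/-- the questions for the verifier of the complement -/
def Wc (c : ℕ) (p : ℕ × List Bool) : List Bool :=
  pairBits (ent (unpair (unpair p.2).2).1 p.1).tail (mbr c (unpair (unpair p.2).2).2 p.1)

/-- the final test -/
def tst (c : ℕ) (p₀ : Polynomial ℕ) (n₀ : ℕ) (F₀ : List (List Bool)) (ans u x votes : List Bool) :
    Bool :=
  if x.length < n₀ then decide (x ∈ F₀) else
    (List.range (2 ^ jn c x.length)).all (fun i => (ent u i).isEmpty ||
      (votes.getD i false && decide ((ent u i).length ≤ p₀.eval x.length + 1))) &&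
    (decide (((List.range (2 ^ jn c x.length)).filter (fun i => !(ent u i).isEmpty)).length =
      valB ans) && (ent u (valB x % 2 ^ jn c x.length)).isEmpty)

section

variable {α : Type} [TEnc α]

theorem u_jn (c : ℕ) {n : α → ℕ} (hn : Poly n) : UPoly (fun a => jn c (n a)) :=
  UPoly.mul (UPoly.const _) (UPoly.length (Poly.natBits hn))

theorem p_gno (c : ℕ) {x : α → List Bool} (hx : Poly x) : Poly (fun a => gno c (x a)) :=
  Poly.div (Poly.valBits hx) (p_pow2 (u_jn c (Poly.length hx)))

theorem p_mbr (c : ℕ) {x : α → List Bool} {i : α → ℕ} (hx : Poly x) (hi : Poly i) :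
    Poly (fun a => mbr c (x a) (i a)) :=
  poly_fit hx (Poly.natBits (Poly.add hi (Poly.mul (p_pow2 (u_jn c (Poly.length hx)))
    (p_gno c hx))))

theorem p_ent {u : α → List Bool} {i : α → ℕ} (hu : Poly u) (hi : Poly i) :
    Poly (fun a => ent (u a) (i a)) :=
  Poly.getD (Poly.optGetD (poly_unbits.comp hu) (NPC.Poly.const _)) hi (NPC.Poly.const _)

theorem two_pow_jn (c n : ℕ) : 2 ^ jn c n ≤ (2 * n + 1) ^ (c + 2) := by
  unfold jn
  rw [mul_comm, pow_mul]
  exact Nat.pow_le_pow_left (two_pow_bits n) _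

/-- the bound for the size of the groups -/
noncomputable def Tc (c : ℕ) : Polynomial ℕ :=
  (Polynomial.C 2 * Polynomial.X + Polynomial.C 1) ^ (c + 2)

theorem eval_Tc (c n : ℕ) : (Tc c).eval n = (2 * n + 1) ^ (c + 2) := by simp [Tc]

theorem u_pow_jn (c : ℕ) {x : α → List Bool} (hx : Poly x) :
    UPoly (fun a => 2 ^ jn c (x a).length) :=
  UPoly.of_le (p_pow2 (u_jn c (Poly.length hx))) (UPoly.eval (UPoly.length hx) (Tc c)) fun a => by
    rw [eval_Tc]
    exact two_pow_jn c _

theorem poly_Qc (c : ℕ) : Poly (Qc c) := by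
  have hx : Poly (fun y : List Bool => (unpair y).2) := Poly.snd poly_unpair
  have hj := u_jn c (Poly.length hx)
  refine NPC.Poly.map (F := fun y b => true :: str (gno c (unpair y).2 *
    (jn c (unpair y).2.length + 1) + b)) (UPoly.range (UPoly.add hj (UPoly.const 1))) ?_
  exact Poly.cons (NPC.Poly.const true) (p_str (Poly.add (Poly.mul
    ((p_gno c hx).comp (Poly.fst Poly.id)) ((Poly.succ hj.toPoly).comp (Poly.fst Poly.id)))
    (Poly.snd Poly.id)))

theorem poly_Wc (c : ℕ) : Poly (Wc c) := by
  have h1 : Poly (fun p : ℕ × List Bool => unpair (unpair p.2).2) :=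
    poly_unpair.comp (Poly.snd (poly_unpair.comp (Poly.snd Poly.id)))
  exact poly_pairBits (Poly.tail (p_ent (Poly.fst h1) (Poly.fst Poly.id)))
    (p_mbr c (Poly.snd h1) (Poly.fst Poly.id))

theorem poly_tst (c : ℕ) (p₀ : Polynomial ℕ) (n₀ : ℕ) (F₀ : List (List Bool))
    {ans u x votes : α → List Bool} (hans : Poly ans) (hu : Poly u) (hx : Poly x)
    (hv : Poly votes) : Poly (fun a => tst c p₀ n₀ F₀ (ans a) (u a) (x a) (votes a)) := by
  unfold tst
  have hr := UPoly.range (u_pow_jn c hx)
  have he : Poly (fun p : α × ℕ => ent (u p.1) p.2) :=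
    p_ent (hu.comp (Poly.fst Poly.id)) (Poly.snd Poly.id)
  have hp : Poly (fun a => p₀.eval (x a).length + 1) :=
    Poly.succ (UPoly.eval (UPoly.length hx) p₀).toPoly
  refine Poly.ite (Poly.decide_lt (Poly.length hx) (NPC.Poly.const _))
    (Poly.dec_mem hx (NPC.Poly.const _)) (Poly.and ?_ (Poly.and ?_ ?_))
  · refine Poly.all (p := fun a i => (ent (u a) i).isEmpty || ((votes a).getD i false &&
      decide ((ent (u a) i).length ≤ p₀.eval (x a).length + 1))) hr ?_
    exact Poly.or (Poly.isEmpty he) (Poly.and (Poly.getD (hv.comp (Poly.fst Poly.id))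
      (Poly.snd Poly.id) (NPC.Poly.const _)) (Poly.decide_le (Poly.length he)
      (hp.comp (Poly.fst Poly.id))))
  · exact Poly.decide_eq (Poly.length (Poly.filter (p := fun a i => !(ent (u a) i).isEmpty) hr
      (Poly.not (Poly.isEmpty he)))) (Poly.valBits hans)
  · exact Poly.isEmpty (p_ent hu (Poly.mod (Poly.valBits hx)
      (p_pow2 (u_jn c (Poly.length hx)))))

end

/-- the verifier for the advice -/
noncomputable def VV (c : ℕ) (p₀ : Polynomial ℕ) (n₀ : ℕ) (F₀ : List (List Bool))
    (V₀ : List Bool → List Bool) (O : Oracle) (y : List Bool) : List Bool :=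
  [tst c p₀ n₀ F₀ ((Qc c y).map O) (unpair y).1 (unpair y).2
    ((List.range ((Tc c).eval (pairBits ((Qc c y).map O) y).length)).map
      (fun i => decide (V₀ (Wc c (i, pairBits ((Qc c y).map O) y)) = [true])))]

theorem ufp_VV (c : ℕ) (p₀ : Polynomial ℕ) (n₀ : ℕ) (F₀ : List (List Bool)) {A : Oracle}
    {V₀ : List Bool → List Bool} (hV₀ : IsFP A V₀) {ι : Type} (H : ι → Oracle) :
    UFP (fun i => two A (H i)) (fun i => VV c p₀ n₀ F₀ V₀ (two A (H i))) := by
  have h1 : UFP (fun i => two A (H i)) (fun i y => (Qc c y).map (two A (H i))) :=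
    UFP.tt (H := fun p => p.2) (poly_Qc c) (Poly.snd Poly.id)
  have h2 := UFP.votes (UFP.lift hV₀ H) (Tc c) (poly_Wc c)
    (H := fun q => [tst c p₀ n₀ F₀ (unpair q.1).1 (unpair (unpair q.1).2).1
      (unpair (unpair q.1).2).2 q.2]) (by
      have e1 : Poly (fun q : List Bool × List Bool => unpair q.1) :=
        poly_unpair.comp (Poly.fst Poly.id)
      have e2 : Poly (fun q : List Bool × List Bool => unpair (unpair q.1).2) :=
        poly_unpair.comp (Poly.snd e1)
      exact Poly.cons (poly_tst c p₀ n₀ F₀ (Poly.fst e1) (Poly.fst e2) (Poly.snd e2)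
        (Poly.snd Poly.id)) (NPC.Poly.const []))
  have h3 := UFP.seq (φ := fun p => pairBits p.2 p.1) (ψ := fun p => p.2.2) h1 h2
    (poly_pairBits (Poly.snd Poly.id) (Poly.fst Poly.id)) (Poly.snd (Poly.snd Poly.id))
  refine (congrArg (UFP _) (funext fun i => funext fun y => ?_)).mp h3
  simp only [unpair_pairBits]
  rfl

end Pool.Agent.TH681.Adv
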