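import Pool.Agent.TH681.Adv.Up

/-! The upper bound: correctness. -/

set_option autoImplicit false

namespace Pool.Agent.TH681.Adv

open Pool.Agent.NPC Pool.Agent.H620R2.Gauge Finset Pool.Agent.H622R2
open Pool.Agent.H591R3.PHG.LangSig (fit length_fit poly_fit)

theorem tst_iff {c : ℕ} {p₀ : Polynomial ℕ} {n₀ : ℕ} {F₀ : List (List Bool)}
    {ans u x votes : List Bool} (hx : n₀ ≤ x.length) :
    tst c p₀ n₀ F₀ ans u x votes = true ↔
      (∀ i < 2 ^ jn c x.length, ent u i = [] ∨
        (votes.getD i false = true ∧ (ent u i).length ≤ p₀.eval x.length + 1)) ∧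
      ((Finset.range (2 ^ jn c x.length)).filter (fun i => ent u i ≠ [])).card = valB ans ∧
      ent u (valB x % 2 ^ jn c x.length) = [] := by
  have h1 : ((Finset.range (2 ^ jn c x.length)).filter (fun i => ent u i ≠ [])).card =
      ((List.range (2 ^ jn c x.length)).filter (fun i => !(ent u i).isEmpty)).length := by
    have h2 : ((Finset.range (2 ^ jn c x.length)).filter (fun i => ent u i ≠ [])).card =
        ((List.range (2 ^ jn c x.length)).filter (fun i => decide (ent u i ≠ []))).length := rfl
    rw [h2]
    congr 1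
    apply List.filter_congr
    intro i _
    cases ent u i <;> simp
  rw [h1]
  unfold tst
  rw [if_neg (not_lt.2 hx), Bool.and_eq_true, Bool.and_eq_true, List.all_eq_true,
    decide_eq_true_iff, List.isEmpty_iff]
  refine and_congr_left fun _ => forall_congr' fun i => ?_
  rw [List.mem_range]
  refine imp_congr_right fun _ => ?_
  rw [Bool.or_eq_true, Bool.and_eq_true, decide_eq_true_iff, List.isEmpty_iff]

open Classical in
/-- the number of nonmembers of `L` in the group number `g` -/
noncomputable def cens (c : ℕ) (L : Set (List Bool)) (n g : ℕ) : ℕ :=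
  ((Finset.range (2 ^ jn c n)).filter (fun i => bitsOf n (i + 2 ^ jn c n * g) ∉ L)).card

open Classical in
/-- the advice -/
noncomputable def Hadv (c : ℕ) (L : Set (List Bool)) (a : ℕ → ℕ) (n : ℕ) : Oracle := fun y =>
  decide (idx y < a n ∧ (cens c L n (idx y / (jn c n + 1))).testBit (idx y % (jn c n + 1)) = true)

theorem gno_lt {c : ℕ} {x : List Bool} (h : jn c x.length ≤ x.length) :
    gno c x + 1 ≤ 2 ^ (x.length - jn c x.length) := by
  have h1 := valB_lt x
  have h2 : 2 ^ x.length = 2 ^ jn c x.length * 2 ^ (x.length - jn c x.length) := by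
    rw [← pow_add, Nat.add_sub_cancel' h]
  rw [h2] at h1
  exact Nat.div_lt_of_lt_mul h1

theorem mbr_eq {c : ℕ} {x : List Bool} (h : jn c x.length ≤ x.length) {i : ℕ}
    (hi : i < 2 ^ jn c x.length) :
    mbr c x i = bitsOf x.length (i + 2 ^ jn c x.length * gno c x) := by
  apply fit_bits
  have h1 := Nat.mul_le_mul_left (2 ^ jn c x.length) (gno_lt h)
  have h2 : 2 ^ x.length = 2 ^ jn c x.length * 2 ^ (x.length - jn c x.length) := by
    rw [← pow_add, Nat.add_sub_cancel' h]
  rw [← h2, mul_add, mul_one] at h1
  omega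

theorem ans_eq {c : ℕ} {L : Set (List Bool)} {a : ℕ → ℕ} (A : Oracle) {u x : List Bool}
    (h : jn c x.length ≤ x.length)
    (h' : 2 ^ (x.length - jn c x.length) * (jn c x.length + 1) ≤ a x.length) :
    valB ((Qc c (pairBits u x)).map (two A (Hadv c L a x.length))) =
      cens c L x.length (gno c x) := by
  have h1 : (Qc c (pairBits u x)).map (two A (Hadv c L a x.length)) =
      (List.range (jn c x.length + 1)).map
        (fun b => (cens c L x.length (gno c x)).testBit b) := by
    unfold Qc
    rw [List.map_map, unpair_pairBits]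
    apply List.map_congr_left
    intro b hb
    replace hb : b < jn c x.length + 1 := List.mem_range.1 hb
    show Hadv c L a x.length (str (gno c x * (jn c x.length + 1) + b)) = _
    unfold Hadv
    rw [idx_str]
    have h2 : (gno c x * (jn c x.length + 1) + b) / (jn c x.length + 1) = gno c x := by
      rw [Nat.add_comm, Nat.add_mul_div_right _ _ (Nat.succ_pos _), Nat.div_eq_of_lt hb, zero_add]
    have h3 : (gno c x * (jn c x.length + 1) + b) % (jn c x.length + 1) = b := by
      rw [Nat.add_comm, Nat.add_mul_mod_self_right, Nat.mod_eq_of_lt hb]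
    rw [h2, h3]
    have h4 : gno c x * (jn c x.length + 1) + b < a x.length := by
      have h5 := Nat.mul_le_mul_right (jn c x.length + 1) (gno_lt h)
      rw [add_mul, one_mul] at h5
      omega
    cases hb2 : (cens c L x.length (gno c x)).testBit b with
    | true => exact decide_eq_true ⟨h4, rfl⟩
    | false => exact decide_eq_false fun h => Bool.noConfusion h.2
  rw [h1, valB_testBit, Nat.mod_eq_of_lt]
  have h2 : cens c L x.length (gno c x) ≤ 2 ^ jn c x.length := by
    classical
    exact (Finset.card_filter_le _ _).trans (le_of_eq (Finset.card_range _))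
  have h3 : 2 ^ (jn c x.length + 1) = 2 * 2 ^ jn c x.length := by ring
  have h4 : 0 < 2 ^ jn c x.length := by positivity
  omega

theorem votes_eq (c : ℕ) (V₀ : List Bool → List Bool) (ans u x : List Bool) {i : ℕ}
    (hi : i < 2 ^ jn c x.length) :
    ((List.range ((Tc c).eval (pairBits ans (pairBits u x)).length)).map
      (fun i => decide (V₀ (Wc c (i, pairBits ans (pairBits u x))) = [true]))).getD i false =
      true ↔ V₀ (pairBits (ent u i).tail (mbr c x i)) = [true] := by
  have h1 : i < (Tc c).eval (pairBits ans (pairBits u x)).length := by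
    refine hi.trans_le ((two_pow_jn c x.length).trans ?_)
    rw [← eval_Tc]
    apply eval_mono
    rw [length_pairBits, length_pairBits]
    omega
  rw [List.getD_eq_getElem?_getD, List.getElem?_map, List.getElem?_range h1]
  simp only [Option.map_some, Option.getD_some, decide_eq_true_eq]
  unfold Wc
  simp only [unpair_pairBits]

/-- the bound for the length of the guess -/
noncomputable def pU (c : ℕ) (p₀ : Polynomial ℕ) : Polynomial ℕ :=
  Tc c * (4 * p₀ + 6) + 1

theorem eval_pU (c : ℕ) (p₀ : Polynomial ℕ) (n : ℕ) :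
    (pU c p₀).eval n = (Tc c).eval n * (4 * p₀.eval n + 6) + 1 := by simp [pU]

theorem sz_le_of_all {B : ℕ} : ∀ l : List (List Bool), (∀ e ∈ l, e.length ≤ B) →
    sz l ≤ l.length * (4 * B + 2) + 1 := by
  intro l
  induction l with
  | nil => intro _; simp
  | cons e l ih =>
    intro h
    rw [sz_list_cons, List.length_cons]
    have h1 := sz_listBool_le e
    have h2 := h e (List.mem_cons_self)
    have h3 := ih fun e he => h e (List.mem_cons_of_mem _ he)
    have h4 : (l.length + 1) * (4 * B + 2) = l.length * (4 * B + 2) + (4 * B + 2) := by ring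
    omega

open Classical in
theorem up_main {c : ℕ} {L : Set (List Bool)} {a : ℕ → ℕ} {A : Oracle} {p₀ : Polynomial ℕ}
    {n₀ : ℕ} {F₀ : List (List Bool)} {V₀ : List Bool → List Bool}
    (hV : ∀ x, x ∈ Lᶜ ↔ ∃ w : List Bool, w.length ≤ p₀.eval x.length ∧
      V₀ (pairBits w x) = [true]) {x : List Bool} (hx : n₀ ≤ x.length)
    (h : jn c x.length ≤ x.length)
    (h' : 2 ^ (x.length - jn c x.length) * (jn c x.length + 1) ≤ a x.length) :
    x ∈ L ↔ ∃ u : List Bool, u.length ≤ (pU c p₀).eval x.length ∧
      VV c p₀ n₀ F₀ V₀ (two A (Hadv c L a x.length)) (pairBits u x) = [true] := by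
  set n := x.length with hn
  set j := jn c n with hj
  set g := gno c x with hg
  have hdiv : valB x % 2 ^ j + 2 ^ j * g = valB x := by
    rw [hg, gno, ← hn, ← hj]
    exact Nat.mod_add_div _ _
  have hlt : valB x % 2 ^ j < 2 ^ j := Nat.mod_lt _ (by positivity)
  have hself : bitsOf n (valB x % 2 ^ j + 2 ^ j * g) = x := by
    rw [hdiv, hn]
    exact bitsOf_valB x
  have hlen : ∀ k, (bitsOf n k).length = n := fun k => length_bitsOf n k
  have hVV : ∀ u, VV c p₀ n₀ F₀ V₀ (two A (Hadv c L a n)) (pairBits u x) = [true] ↔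
      (∀ i < 2 ^ j, ent u i = [] ∨ (V₀ (pairBits (ent u i).tail (bitsOf n (i + 2 ^ j * g))) =
        [true] ∧ (ent u i).length ≤ p₀.eval n + 1)) ∧
      ((Finset.range (2 ^ j)).filter (fun i => ent u i ≠ [])).card = cens c L n g ∧
      ent u (valB x % 2 ^ j) = [] := by
    intro u
    unfold VV
    rw [List.cons.injEq, unpair_pairBits]
    simp only [and_true]
    rw [tst_iff hx, ans_eq A h h']
    refine and_congr_left fun _ => forall_congr' fun i => imp_congr_right fun hi => ?_
    rw [votes_eq c V₀ _ u x hi, mbr_eq h hi]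
  constructor
  · intro hxL
    have hw : ∀ i, ∃ w : List Bool, bitsOf n (i + 2 ^ j * g) ∉ L → w.length ≤ p₀.eval n ∧
        V₀ (pairBits w (bitsOf n (i + 2 ^ j * g))) = [true] := by
      intro i
      by_cases hi : bitsOf n (i + 2 ^ j * g) ∉ L
      · obtain ⟨w, h1, h2⟩ := (hV _).1 hi
        rw [hlen] at h1
        exact ⟨w, fun _ => ⟨h1, h2⟩⟩
      · exact ⟨[], fun h => absurd h hi⟩
    choose w hw using hw
    set e : List (List Bool) := (List.range (2 ^ j)).map
      (fun i => if bitsOf n (i + 2 ^ j * g) ∉ L then true :: w i else []) with he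
    have hent : ∀ i < 2 ^ j, ent (bits e) i =
        if bitsOf n (i + 2 ^ j * g) ∉ L then true :: w i else [] := by
      intro i hi
      unfold ent
      rw [unbits_bits, Option.getD_some, he, List.getD_eq_getElem?_getD, List.getElem?_map,
        List.getElem?_range hi]
      rfl
    refine ⟨bits e, ?_, (hVV _).2 ⟨?_, ?_, ?_⟩⟩
    · have h1 : ∀ l ∈ e, l.length ≤ p₀.eval n + 1 := by
        intro l hl
        rw [he, List.mem_map] at hl
        obtain ⟨i, _, rfl⟩ := hl
        by_cases hi : bitsOf n (i + 2 ^ j * g) ∉ L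
        · rw [if_pos hi, List.length_cons]
          have := (hw i hi).1
          omega
        · rw [if_neg hi]
          simp
      have h2 := sz_le_of_all e h1
      rw [bits_length, eval_pU]
      have h3 : e.length = 2 ^ j := by rw [he, List.length_map, List.length_range]
      rw [h3] at h2
      have h4 := two_pow_jn c n
      rw [← eval_Tc, ← hj] at h4
      have h5 : 2 ^ j * (4 * (p₀.eval n + 1) + 2) ≤ (Tc c).eval n * (4 * p₀.eval n + 6) :=
        Nat.mul_le_mul h4 (by omega)
      omega
    · intro i hi
      rw [hent i hi]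
      by_cases hi2 : bitsOf n (i + 2 ^ j * g) ∉ L
      · rw [if_pos hi2]
        refine Or.inr ⟨(hw i hi2).2, ?_⟩
        rw [List.length_cons]
        have := (hw i hi2).1
        omega
      · rw [if_neg hi2]
        exact Or.inl rfl
    · unfold cens
      congr 1
      apply Finset.filter_congr
      intro i hi
      rw [Finset.mem_range] at hi
      rw [hent i hi]
      by_cases hi2 : bitsOf n (i + 2 ^ j * g) ∉ L
      · rw [if_pos hi2]
        exact iff_of_true (List.cons_ne_nil _ _) hi2
      · rw [if_neg hi2]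
        exact iff_of_false (fun h => h rfl) hi2
    · rw [hent _ hlt, hself]
      exact if_neg (not_not.2 hxL)
  · rintro ⟨u, _, hu⟩
    obtain ⟨h1, h2, h3⟩ := (hVV u).1 hu
    have hsub : (Finset.range (2 ^ j)).filter (fun i => ent u i ≠ []) ⊆
        (Finset.range (2 ^ j)).filter (fun i => bitsOf n (i + 2 ^ j * g) ∉ L) := by
      intro i hi
      rw [Finset.mem_filter] at hi ⊢
      refine ⟨hi.1, ?_⟩
      rcases h1 i (Finset.mem_range.1 hi.1) with h4 | ⟨h4, h5⟩
      · exact absurd h4 hi.2
      · refine (hV _).2 ⟨(ent u i).tail, ?_, h4⟩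
        rw [hlen, List.length_tail]
        omega
    have heq := Finset.eq_of_subset_of_card_le hsub (by rw [h2]; rfl)
    by_contra hxL
    have h6 : valB x % 2 ^ j ∈ (Finset.range (2 ^ j)).filter
        (fun i => bitsOf n (i + 2 ^ j * g) ∉ L) := by
      rw [Finset.mem_filter, Finset.mem_range, hself]
      exact ⟨hlt, hxL⟩
    rw [← heq, Finset.mem_filter] at h6
    exact h6.2 h3

end Pool.Agent.TH681.Adv
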